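import Mathlib

set_option autoImplicit false

namespace Pool.Agent.Results.MP_e6ec33_pr.NotIdentity

open Filter Topology MeasureTheory unitInterval SimpleGraph

noncomputable section

section defs

variable {V : Type} (H : SimpleGraph V)

/-- `L` lists vertex-disjoint paths of `H` (each a nonempty list of vertices, consecutive ones
adjacent) whose vertex sets cover all vertices. -/
def IsPathCover (L : List (List V)) : Prop :=
  (∀ l ∈ L, l ≠ [] ∧ l.IsChain H.Adj) ∧ L.flatten.Nodup ∧ ∀ v, v ∈ L.flatten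

/-- The path cover number `μ(H)`. -/
def mu : ℕ := sInf {k : ℕ | ∃ L, IsPathCover H L ∧ L.length = k}

/-- `f_k(H)`: the least size of a set `F` of edges with `μ(H - F) = k` (`⊤` if there is none). -/
def f (k : ℕ) : ℕ∞ :=
  sInf {m : ℕ∞ | ∃ F : Finset (Sym2 V), (F : Set (Sym2 V)) ⊆ H.edgeSet ∧
    mu (H.deleteEdges F) = k ∧ (F.card : ℕ∞) = m}

open Classical in
/-- The minimum degree `δ(H)`. -/
def delta [Fintype V] : ℕ := H.minDegree

end defs

variable {V : Type} {H : SimpleGraph V}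

lemma chain_del {a b : V} {l : List V} (h : l.IsChain H.Adj) (ha : a ∉ l) :
    l.IsChain (H.deleteEdges {s(a, b)}).Adj := by
  refine h.imp_of_mem_imp fun x y hx hy hxy => ?_
  rw [deleteEdges_adj]
  refine ⟨hxy, fun e => ?_⟩
  rcases Sym2.eq_iff.1 (Set.mem_singleton_iff.1 e) with ⟨rfl, -⟩ | ⟨-, rfl⟩
  · exact ha hx
  · exact ha hy

lemma split_path (a b : V) : ∀ l : List V, l.IsChain H.Adj → l.Nodup →
    l.IsChain (H.deleteEdges {s(a, b)}).Adj ∨ ∃ l1 l2 : List V, l1 ≠ [] ∧ l2 ≠ [] ∧ l = l1 ++ l2 ∧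
      l1.IsChain (H.deleteEdges {s(a, b)}).Adj ∧ l2.IsChain (H.deleteEdges {s(a, b)}).Adj
  | [], _, _ => Or.inl (by simp)
  | [x], _, _ => Or.inl (by simp)
  | x :: y :: t, h, hn => by
    rw [List.isChain_cons_cons] at h
    rw [List.nodup_cons] at hn
    by_cases e : s(x, y) = s(a, b)
    · refine Or.inr ⟨[x], y :: t, by simp, by simp, rfl, by simp, ?_⟩
      rw [← e]
      exact chain_del h.2 hn.1
    · have h1 : (H.deleteEdges {s(a, b)}).Adj x y := by
        rw [deleteEdges_adj]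
        exact ⟨h.1, e⟩
      rcases split_path a b (y :: t) h.2 hn.2 with h2 | ⟨l1, l2, n1, n2, e2, c1, c2⟩
      · exact Or.inl (List.isChain_cons_cons.2 ⟨h1, h2⟩)
      · obtain ⟨z, l1, rfl⟩ := List.exists_cons_of_ne_nil n1
        obtain ⟨rfl, rfl⟩ := List.cons.inj e2
        exact Or.inr ⟨x :: y :: l1, l2, by simp, n2, rfl, List.isChain_cons_cons.2 ⟨h1, c1⟩, c2⟩

lemma split_cover (a b : V) : ∀ L : List (List V), (∀ l ∈ L, l ≠ [] ∧ l.IsChain H.Adj) →
    L.flatten.Nodup → ∃ L' : List (List V),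
      (∀ l ∈ L', l ≠ [] ∧ l.IsChain (H.deleteEdges {s(a, b)}).Adj) ∧ L'.flatten = L.flatten ∧
        L'.length ≤ L.length + 1
  | [], _, _ => ⟨[], by simp, rfl, by simp⟩
  | l :: L, h, hn => by
    rw [List.flatten_cons, List.nodup_append] at hn
    have hl := h l (by simp)
    have hL := fun m hm => h m (List.mem_cons_of_mem _ hm)
    by_cases ha : a ∈ l
    · have h2 : ∀ m ∈ L, m ≠ [] ∧ m.IsChain (H.deleteEdges {s(a, b)}).Adj := fun m hm =>
        ⟨(hL m hm).1, chain_del (hL m hm).2 fun h3 =>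
          hn.2.2 a ha a (List.mem_flatten.2 ⟨m, hm, h3⟩) rfl⟩
      rcases split_path a b l hl.2 hn.1 with h3 | ⟨l1, l2, n1, n2, rfl, c1, c2⟩
      · exact ⟨l :: L, List.forall_mem_cons.2 ⟨⟨hl.1, h3⟩, h2⟩, rfl, by simp⟩
      · exact ⟨l1 :: l2 :: L, List.forall_mem_cons.2 ⟨⟨n1, c1⟩, List.forall_mem_cons.2
          ⟨⟨n2, c2⟩, h2⟩⟩, by simp, by simp⟩
    · obtain ⟨L', h1, h2, h3⟩ := split_cover a b L hL hn.2.1
      exact ⟨l :: L', List.forall_mem_cons.2 ⟨⟨hl.1, chain_del hl.2 ha⟩, h1⟩, by simp [h2],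
        by simpa using h3⟩

lemma mu_spec [Fintype V] (H : SimpleGraph V) : ∃ L, IsPathCover H L ∧ L.length = mu H := by
  refine Nat.sInf_mem (s := {k : ℕ | ∃ L, IsPathCover H L ∧ L.length = k})
    ⟨_, Finset.univ.toList.map fun v => [v], ⟨by simp, ?_, by simp⟩, rfl⟩
  rw [← List.flatMap_def, List.flatMap_singleton']
  exact Finset.nodup_toList _

lemma mu_del [Fintype V] (H : SimpleGraph V) (e : Sym2 V) : mu (H.deleteEdges {e}) ≤ mu H + 1 := by
  obtain ⟨L, ⟨h1, h2, h3⟩, h4⟩ := mu_spec H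
  induction e using Sym2.ind with
  | _ a b =>
    obtain ⟨L', k1, k2, k3⟩ := split_cover a b L h1 h2
    have : mu (H.deleteEdges {s(a, b)}) ≤ L'.length :=
      Nat.sInf_le ⟨L', ⟨k1, k2 ▸ h2, k2 ▸ h3⟩, rfl⟩
    omega

lemma mu_mono [Fintype V] (H : SimpleGraph V) (F : Set (Sym2 V)) : mu H ≤ mu (H.deleteEdges F) := by
  obtain ⟨L, ⟨h1, h2, h3⟩, h4⟩ := mu_spec (H.deleteEdges F)
  exact h4 ▸ Nat.sInf_le ⟨L, ⟨fun l hl => ⟨(h1 l hl).1, (h1 l hl).2.imp fun _ _ h =>
    (deleteEdges_adj.1 h).1⟩, h2, h3⟩, rfl⟩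

lemma ivt [Fintype V] {k : ℕ} (hk : mu H ≤ k) (F : Finset (Sym2 V)) :
    k ≤ mu (H.deleteEdges F) → ∃ F' ⊆ F, mu (H.deleteEdges (F' : Finset (Sym2 V))) = k := by
  classical
  induction F using Finset.induction_on with
  | empty => exact fun h => ⟨∅, le_rfl, le_antisymm (by simpa using hk) h⟩
  | insert e F _ ih =>
    intro h
    by_cases h1 : k ≤ mu (H.deleteEdges F)
    · obtain ⟨F', h2, h3⟩ := ih h1
      exact ⟨F', h2.trans (Finset.subset_insert _ _), h3⟩
    · refine ⟨_, le_rfl, le_antisymm ?_ h⟩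
      have := mu_del (H.deleteEdges F) e
      rw [deleteEdges_deleteEdges] at this
      rw [Finset.coe_insert, Set.insert_eq, Set.union_comm]
      omega

lemma mu_isolated [Fintype V] {v w : V} (hvw : w ≠ v) (h : ∀ u, ¬ H.Adj v u) : 2 ≤ mu H := by
  obtain ⟨L, ⟨h1, h2, h3⟩, h4⟩ := mu_spec H
  rw [← h4]
  match L, h1, h2, h3 with
  | [], _, _, h3 => simpa using h3 v
  | [l], h1, _, h3 =>
    exfalso
    have c := (h1 l (by simp)).2
    have hv : v ∈ l := by simpa using h3 v
    have hw : w ∈ l := by simpa using h3 w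
    obtain ⟨s, t, rfl⟩ := List.append_of_mem hv
    rcases t with _ | ⟨y, t⟩
    · rcases List.eq_nil_or_concat s with rfl | ⟨s, x, rfl⟩
      · exact hvw (by simpa using hw)
      · rw [List.concat_eq_append, List.append_assoc, List.singleton_append,
          List.isChain_append_cons_cons] at c
        exact h x c.2.1.symm
    · rw [List.isChain_append_cons_cons] at c
      exact h y c.2.1
  | _ :: _ :: _, _, _, _ => simp

lemma det {n : ℕ} (G : SimpleGraph (Fin n)) (h : 3 ≤ delta G) :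
    f G 2 ≠ ((2 * (delta G - 1) : ℕ) : ℕ∞) := by
  classical
  by_cases hm : mu G ≤ 2
  · have : Nonempty (Fin n) := by
      by_contra hc
      rw [not_nonempty_iff] at hc
      simp [delta] at h
    obtain ⟨v, hv⟩ := G.exists_minimal_degree_vertex
    have hd : delta G = G.degree v := by
      rw [← hv, delta]
    obtain ⟨w, hw⟩ := (G.degree_pos_iff_exists_adj v).1 (by omega)
    obtain ⟨F, h1, h2⟩ := ivt hm (G.incidenceFinset v) (mu_isolated hw.ne' fun u hu => by
      rw [deleteEdges_adj] at hu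
      exact hu.2 (by simpa using hu.1))
    have h3 : f G 2 ≤ (F.card : ℕ∞) := sInf_le ⟨F, fun e he => G.incidenceSet_subset v
      (by simpa using h1 he), h2, rfl⟩
    have h4 := Finset.card_le_card h1
    rw [card_incidenceFinset_eq_degree] at h4
    intro e
    rw [e, Nat.cast_le] at h3
    omega
  · have : f G 2 = ⊤ := by
      rw [f, sInf_eq_top]
      rintro _ ⟨F, -, h2, -⟩
      have := mu_mono G F
      omega
    rw [this]
    exact (ENat.natCast_ne_top _).symm

lemma avoid {n : ℕ} (p : I) (v : Fin n) (T : Finset (Fin n)) (hv : v ∉ T) :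
    binomialRandom (Fin n) p {G | ∀ u ∈ T, ¬ G.Adj v u} ≤ ENNReal.ofReal ((1 - p) ^ T.card) := by
  classical
  rw [binomialRandom_apply]
  refine (measure_mono (t := Set.pi (T.image fun u => s(v, u) : Finset _) fun _ => {False}) ?_).trans ?_
  · rintro _ ⟨G, hG, rfl⟩ e he
    obtain ⟨u, hu, rfl⟩ := Finset.mem_image.1 he
    simpa using hG u hu
  · rw [Measure.infinitePi_pi _ fun _ _ => MeasurableSet.of_discrete,
      Finset.prod_image fun a _ b _ e => by simpa using Sym2.congr_right.1 e]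
    rw [Finset.prod_congr rfl (g := fun _ => ENNReal.ofReal (1 - p)), Finset.prod_const,
      ENNReal.ofReal_pow (by linarith [p.2.2])]
    intro u hu
    have : v ≠ u := fun e => hv (e ▸ hu)
    simp [this, ENNReal.ofReal, toNNReal, Real.toNNReal, p.2.2]
    rfl

lemma small {n : ℕ} (p : I) (hn : 3 ≤ n) : binomialRandom (Fin n) p {G | delta G < 3} ≤
    ENNReal.ofReal (Real.exp (3 - (n * (p : ℝ) - 3 * Real.log n))) := by
  classical
  have : Nonempty (Fin n) := ⟨⟨0, by omega⟩⟩
  have h1 : {G : SimpleGraph (Fin n) | delta G < 3} ⊆ ⋃ x : Fin n × Fin n × Fin n,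
      {G | ∀ u ∈ ({x.1, x.2.1, x.2.2} : Finset (Fin n))ᶜ, ¬ G.Adj x.1 u} := by
    intro G hG
    obtain ⟨v, hv⟩ := G.exists_minimal_degree_vertex
    have hd : (G.neighborFinset v).card ≤ 2 := by
      have : delta G = G.degree v := by
        rw [← hv, delta]
      rw [card_neighborFinset_eq_degree]
      have h2 : delta G < 3 := hG
      omega
    obtain ⟨a, b, hab⟩ : ∃ a b, G.neighborFinset v ⊆ {a, b} := by
      obtain ⟨t, h1, -, h2⟩ := Finset.exists_subsuperset_card_eq (Finset.subset_univ _) hd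
        (by simp; omega)
      obtain ⟨a, b, -, rfl⟩ := Finset.card_eq_two.1 h2
      exact ⟨a, b, h1⟩
    refine Set.mem_iUnion.2 ⟨(v, a, b), fun u hu hvu => Finset.mem_compl.1 hu ?_⟩
    exact Finset.mem_insert_of_mem (hab (by simpa using hvu))
  have hp0 := p.2.1
  have hp1 := p.2.2
  have hn' : (3 : ℝ) ≤ n := by exact_mod_cast hn
  refine (measure_mono h1).trans ((measure_iUnion_fintype_le _ _).trans ?_)
  refine (Finset.sum_le_card_nsmul _ _ (ENNReal.ofReal (Real.exp (-(p * (n - 3))))) fun x _ =>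
    (avoid p x.1 _ (by simp)).trans (ENNReal.ofReal_le_ofReal ?_)).trans ?_
  · have h2 : n - 3 ≤ (({x.1, x.2.1, x.2.2} : Finset (Fin n))ᶜ).card := by
      rw [Finset.card_compl, Fintype.card_fin]
      exact Nat.sub_le_sub_left Finset.card_le_three n
    refine (pow_le_pow_of_le_one (by linarith) (by linarith) h2).trans
      ((pow_le_pow_left₀ (by linarith) (Real.one_sub_le_exp_neg _) _).trans (le_of_eq ?_))
    rw [← Real.exp_nat_mul, Nat.cast_sub hn]
    congr 1
    push_cast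
    ring
  · rw [nsmul_eq_mul, ← ENNReal.ofReal_natCast, ← ENNReal.ofReal_mul (by positivity)]
    refine ENNReal.ofReal_le_ofReal ?_
    have h3 : ((Finset.univ : Finset (Fin n × Fin n × Fin n)).card : ℝ) = Real.exp (3 * Real.log n) := by
      rw [show (3 : ℝ) = ((3 : ℕ) : ℝ) by norm_num, Real.exp_nat_mul, Real.exp_log (by linarith)]
      simp
      ring
    rw [h3, ← Real.exp_add]
    exact Real.exp_le_exp.2 (by nlinarith)

theorem result (p : ℕ → I)
    (hp : Tendsto (fun n : ℕ => n * (p n : ℝ) - 3 * Real.log n) atTop atTop) :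
    Tendsto (fun n : ℕ => binomialRandom (Fin n) (p n)
      {G | f G 2 = ((2 * (delta G - 1) : ℕ) : ℕ∞)}) atTop (𝓝 0) := by
  have h1 : Tendsto (fun n : ℕ => ENNReal.ofReal (Real.exp (3 - (n * (p n : ℝ) - 3 * Real.log n))))
      atTop (𝓝 0) := by
    rw [← ENNReal.ofReal_zero]
    exact ENNReal.tendsto_ofReal (Real.tendsto_exp_atBot.comp
      (tendsto_atBot_add_const_left _ 3 (tendsto_neg_atTop_atBot.comp hp)))
  refine tendsto_of_tendsto_of_tendsto_of_le_of_le' tendsto_const_nhds h1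
    (Eventually.of_forall fun _ => bot_le) ?_
  filter_upwards [eventually_ge_atTop 3] with n hn
  exact (measure_mono fun G hG => not_le.1 fun h => det G h hG).trans (small (p n) hn)

end

end Pool.Agent.Results.MP_e6ec33_pr.NotIdentity
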